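import Pool.Agent.BSE.Stmts

/-!
# BSE, row TRN: `U_B` is transitive on the unit vectors supported on `B`
-/

set_option autoImplicit false

open MeasureTheory Matrix
open scoped ComplexConjugate

namespace Pool.Agent.BSE.H39

open Pool.Agent.Helper64_FR

theorem exists_phase (z : ℂ) : ∃ φ : ℂ, φ * conj φ = 1 ∧ conj φ * z = -(‖z‖ : ℂ) := by
  by_cases hz : z = 0
  · exact ⟨1, by simp, by simp [hz]⟩
  · have hn : (‖z‖ : ℂ) ≠ 0 := by
      rw [Complex.ofReal_ne_zero]
      exact norm_ne_zero_iff.2 hz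
    have hzz : z * conj z = (‖z‖ : ℂ) ^ 2 := Complex.mul_conj' z
    refine ⟨-z / (‖z‖ : ℂ), ?_, ?_⟩
    · rw [map_div₀, map_neg, Complex.conj_ofReal]
      field_simp
      rw [hzz]
    · rw [map_div₀, map_neg, Complex.conj_ofReal]
      field_simp
      linear_combination -hzz

theorem trn : TRNStmt := by
  intro n B b hb u hu hu1
  obtain ⟨φ, hφ1, hφ2⟩ := exists_phase (u b)
  obtain ⟨ρ, hρ⟩ : ∃ ρ : ℝ, ρ = ‖u b‖ := ⟨_, rfl⟩
  have hρ0 : 0 ≤ ρ := by rw [hρ]; exact norm_nonneg _
  rw [← hρ] at hφ2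
  have hφ3 : φ * conj (u b) = -(ρ : ℂ) := by
    have := congrArg conj hφ2
    rw [map_mul, Complex.conj_conj, map_neg, Complex.conj_ofReal] at this
    exact this
  have hρ1 : (1 + (ρ : ℂ)) ≠ 0 := by
    have : (1 + (ρ : ℂ)) = ((1 + ρ : ℝ) : ℂ) := by push_cast; rfl
    rw [this, Complex.ofReal_ne_zero]
    linarith
  -- the vector of the reflection
  obtain ⟨w, hw⟩ : ∃ w : Fin n → ℂ, w = fun i => (if i = b then 1 else 0) - conj φ * u i :=
    ⟨_, rfl⟩
  have hw0 : ∀ i, i ∉ B → w i = 0 := by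
    intro i hi
    have hib : i ≠ b := fun h => hi (h ▸ hb)
    rw [hw]
    simp only
    rw [if_neg hib, hu i hi, mul_zero, sub_zero]
  have hwb : w b = 1 + (ρ : ℂ) := by
    rw [hw]
    simp only [if_true]
    rw [hφ2]
    ring
  have hu1' : ∑ i, u i * conj (u i) = 1 := by
    have h1 : ∀ i, u i * conj (u i) = ((‖u i‖ ^ 2 : ℝ) : ℂ) := by
      intro i
      rw [Complex.mul_conj']
      push_cast
      rfl
    rw [Finset.sum_congr rfl fun i _ => h1 i, ← Complex.ofReal_sum, hu1, Complex.ofReal_one]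
  have hww : ∑ i, conj (w i) * w i = 2 * (1 + (ρ : ℂ)) := by
    have h1 : ∀ i, conj (w i) * w i = (if i = b then 1 else 0) -
        (if i = b then φ * conj (u i) else 0) - (if i = b then conj φ * u i else 0) +
          (φ * conj φ) * (u i * conj (u i)) := by
      intro i
      rw [hw]
      simp only [map_sub, map_mul, Complex.conj_conj]
      split_ifs
      · rw [map_one]
        ring
      · rw [map_zero]
        ring
    rw [Finset.sum_congr rfl fun i _ => h1 i, Finset.sum_add_distrib, Finset.sum_sub_distrib,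
      Finset.sum_sub_distrib, ← Finset.mul_sum, hu1', hφ1]
    simp only [Finset.sum_ite_eq', Finset.mem_univ, if_true]
    rw [hφ3, hφ2]
    ring
  -- the reflection
  obtain ⟨c, hc⟩ : ∃ c : ℂ, c = 1 / (1 + (ρ : ℂ)) := ⟨_, rfl⟩
  have hcc : conj c = c := by
    rw [hc, map_div₀, map_one, map_add, map_one, Complex.conj_ofReal]
  have hc2 : -c - c + c * c * (2 * (1 + (ρ : ℂ))) = 0 := by
    rw [hc]
    field_simp
    ring
  obtain ⟨W, hW⟩ : ∃ W : Matrix (Fin n) (Fin n) ℂ, W = Matrix.of fun i j => w i * conj (w j) :=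
    ⟨_, rfl⟩
  have hWW : W * W = (2 * (1 + (ρ : ℂ))) • W := by
    ext i j
    rw [Matrix.mul_apply, Matrix.smul_apply, smul_eq_mul, hW]
    simp only [Matrix.of_apply]
    rw [← hww, Finset.sum_mul]
    refine Finset.sum_congr rfl fun k _ => ?_
    ring
  have hWs : star W = W := by
    ext i j
    rw [Matrix.star_apply, hW]
    simp only [Matrix.of_apply, star_mul', RCLike.star_def, Complex.conj_conj]
    ring
  obtain ⟨H, hH⟩ : ∃ H : Matrix (Fin n) (Fin n) ℂ, H = 1 - c • W := ⟨_, rfl⟩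
  have hHs : star H = H := by
    rw [hH, star_sub, star_one, star_smul, hWs, RCLike.star_def, hcc]
  have hHu : H ∈ Matrix.unitaryGroup (Fin n) ℂ := by
    rw [Matrix.mem_unitaryGroup_iff, hHs, hH]
    have h1 : (1 - c • W) * (1 - c • W) = 1 + (-c - c + c * c * (2 * (1 + (ρ : ℂ)))) • W := by
      rw [sub_mul, mul_sub, mul_sub, one_mul, mul_one, smul_mul_smul_comm, hWW]
      simp only [smul_smul, add_smul, sub_smul, neg_smul, one_mul]
      abel
    rw [h1, hc2, zero_smul, add_zero]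
  -- the phase
  obtain ⟨D, hD⟩ : ∃ D : Matrix (Fin n) (Fin n) ℂ,
      D = Matrix.diagonal fun i => if i ∈ B then φ else 1 := ⟨_, rfl⟩
  have hDu : D ∈ Matrix.unitaryGroup (Fin n) ℂ := by
    rw [Matrix.mem_unitaryGroup_iff, hD, Matrix.star_eq_conjTranspose,
      Matrix.diagonal_conjTranspose, Matrix.diagonal_mul_diagonal, ← Matrix.diagonal_one]
    congr 1
    funext i
    rw [Pi.star_apply]
    split_ifs
    · exact hφ1
    · simp
  have hHB : (⟨H, hHu⟩ : UU n) ∈ UB B := by
    intro i j hij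
    show H i j = _
    rw [hH, Matrix.sub_apply, Matrix.one_apply, Matrix.smul_apply, hW, Matrix.of_apply]
    rcases hij with h | h
    · rw [hw0 i h, zero_mul, smul_zero, sub_zero]
    · rw [hw0 j h, map_zero, mul_zero, smul_zero, sub_zero]
  have hDB : (⟨D, hDu⟩ : UU n) ∈ UB B := by
    intro i j hij
    show D i j = _
    rw [hD, Matrix.diagonal_apply]
    by_cases h : i = j
    · subst h
      have hi : i ∉ B := hij.elim id id
      rw [if_pos rfl, if_neg hi, if_pos rfl]
    · rw [if_neg h, if_neg h]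
  refine ⟨⟨D, hDu⟩ * ⟨H, hHu⟩, (UB B).mul_mem hDB hHB, fun i => ?_⟩
  show (D * H) i b = u i
  have hHb : H i b = conj φ * u i := by
    rw [hH, Matrix.sub_apply, Matrix.one_apply, Matrix.smul_apply, hW, Matrix.of_apply, hwb,
      map_add, map_one, Complex.conj_ofReal, smul_eq_mul, hc]
    have h1 : 1 / (1 + (ρ : ℂ)) * (w i * (1 + (ρ : ℂ))) = w i := by
      field_simp
    rw [h1, hw]
    ring
  rw [hD, Matrix.diagonal_mul, hHb]
  split_ifs with h
  · rw [← mul_assoc, hφ1, one_mul]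
  · rw [hu i h, mul_zero, mul_zero]

end Pool.Agent.BSE.H39
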